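import Pool.Agent.QSB.StmtsA
import Pool.Agent.Helper76_QSN.IVM

/-!
Row IVM of the squad QSB: the invariance of the steps (port of Helper76_QSN/IVM).
-/

set_option autoImplicit false

namespace Pool.Agent.QSB.H47

open Matrix Finset Pool.Agent.QSX

theorem ivm (inm : Pool.Agent.QSB.InmStmt) : Pool.Agent.QSB.IvmStmt := by
  intro X Y hX F _ _ P A l l' hll n hn x y
  obtain ⟨K, π, h1, h2⟩ := inm X Y hX F P A l l' (hX.cl_ne.1 hll)
  refine Pool.Agent.QSN.H76.inv_abs A.rg K π l l' hll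
    {t | ∃ p p' : ℝ, 0 ≤ p ∧ 0 < p' ∧ hX.rt t = p • hX.rt l + p' • hX.rt l'} ?_ ?_
    (fun n hn x => h1 l rfl n hn x) (fun t ht n hn x => h2 t ht n hn x) n hn x y
  · exact ⟨0, 1, le_refl _, one_pos, by rw [zero_smul, one_smul, zero_add]⟩
  · intro t ht
    obtain ⟨hp, hq, hr⟩ := hX.L_rt l l' t ht
    exact ⟨t.2.1, t.2.2.1, by positivity, by exact_mod_cast hq, hr⟩

end Pool.Agent.QSB.H47
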