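import Pool.Agent.QSB.StmtsS
import Mathlib.Algebra.Lie.Sl2

set_option autoImplicit false

namespace Pool.Agent.QSB.H47

open Module LieModule

section

variable {L M : Type*} [LieRing L] [LieAlgebra ℝ L] [AddCommGroup M] [Module ℝ M]
  [LieRingModule L M] [LieModule ℝ L M] [FiniteDimensional ℝ M]

theorem slt_zero (h : L) (v : ℕ → M) (r c : ℝ) (hc : c ≠ 0)
    (hv : ∀ n : ℕ, ⁅h, v n⁆ = (r + c * n) • v n) : ∃ n, v n = 0 := by
  by_contra hcon
  push Not at hcon
  have h1 : LinearIndependent ℝ v := by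
    refine Module.End.eigenvectors_linearIndependent' (toEnd ℝ L M h) (fun n : ℕ => r + c * n) ?_ v ?_
    · intro a b hab
      have h2 : c * (a : ℝ) = c * b := by
        have : r + c * (a : ℝ) = r + c * b := hab
        linarith
      exact_mod_cast mul_left_cancel₀ hc h2
    · intro n
      refine ⟨?_, hcon n⟩
      rw [Module.End.mem_eigenspace_iff, toEnd_apply_apply]
      exact hv n
  have h2 := h1.finite
  exact not_finite ℕ

theorem slt_gen {h e f : L} (t : IsSl2Triple h e f) (z : M) (hz : z ≠ 0) (r : ℝ)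
    (hr : ⁅h, z⁆ = r • z) :
    (∃ n : ℤ, r = n) ∧ (r < 0 → ⁅e, z⁆ ≠ 0) ∧ (r = -2 → ⁅e, ⁅e, z⁆⁆ ≠ 0) := by
  have h2 : r < 0 → ⁅e, z⁆ ≠ 0 := by
    intro hr0 he
    have P : t.HasPrimitiveVectorWith z r := ⟨hz, hr, he⟩
    obtain ⟨n, hn⟩ := P.exists_nat
    rw [hn] at hr0
    have : (0 : ℝ) ≤ n := Nat.cast_nonneg n
    linarith
  refine ⟨?_, h2, ?_⟩
  · have h3 : ∃ n, ((toEnd ℝ L M e) ^ n) z = 0 := by
      refine slt_zero h (fun n => ((toEnd ℝ L M e) ^ n) z) r 2 (by norm_num) ?_
      intro n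
      exact t.lie_h_pow_toEnd_e hr n
    obtain ⟨n, hn1, hn2⟩ := Nat.exists_not_and_succ_of_not_zero_of_exists
      (p := fun n => ((toEnd ℝ L M e) ^ n) z = 0) (by simpa using hz) h3
    have P : t.HasPrimitiveVectorWith (((toEnd ℝ L M e) ^ n) z) (r + 2 * n) := by
      refine ⟨hn1, t.lie_h_pow_toEnd_e hr n, ?_⟩
      rw [IsSl2Triple.lie_e_pow_toEnd_e n]
      exact hn2
    obtain ⟨k, hk⟩ := P.exists_nat
    refine ⟨(k : ℤ) - 2 * n, ?_⟩
    push_cast
    linarith
  · intro hr2 hee
    have hu : ⁅e, z⁆ ≠ 0 := h2 (by rw [hr2]; norm_num)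
    have P : t.HasPrimitiveVectorWith ⁅e, z⁆ (0 : ℝ) := by
      refine ⟨hu, ?_, hee⟩
      have h3 := t.lie_h_pow_toEnd_e hr 1
      rw [pow_one, toEnd_apply_apply, hr2] at h3
      rw [h3]
      norm_num
    have hfu : ⁅f, ⁅e, z⁆⁆ = 0 := by
      have h3 := P.pow_toEnd_f_eq_zero_of_eq_nat (n := 0) (by norm_num)
      simpa using h3
    set v : ℕ → M := fun n => ((toEnd ℝ L M f) ^ n) z with hv
    have hvs : ∀ n, v (n + 1) = ⁅f, v n⁆ := by
      intro n
      rw [hv]
      simp only [pow_succ', Module.End.mul_apply, toEnd_apply_apply]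
    have hv0 : v 0 = z := by rw [hv]; simp
    have hw : ∀ n : ℕ, ⁅h, v n⁆ = (-2 + (-2) * n : ℝ) • v n := by
      intro n
      induction n with
      | zero => rw [hv0, hr, hr2]; norm_num
      | succ n ih =>
        rw [hvs, leibniz_lie h, t.lie_lie_smul_f ℝ, ih, lie_smul, neg_lie, smul_lie]
        push_cast
        module
    have ha : ∀ n : ℕ, ⁅e, v (n + 1)⁆ = (-(((n : ℝ) + 1) * (n + 2)) : ℝ) • v n := by
      intro n
      induction n with
      | zero =>
        rw [hvs, leibniz_lie e, t.lie_e_f, hw, hv0, hfu]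
        push_cast
        module
      | succ n ih =>
        rw [hvs, leibniz_lie e, t.lie_e_f, hw, ih, lie_smul, ← hvs]
        push_cast
        module
    obtain ⟨n, hn⟩ := slt_zero h v (-2) (-2) (by norm_num) hw
    have hall : ∀ n, v n ≠ 0 := by
      intro n
      induction n with
      | zero => rw [hv0]; exact hz
      | succ n ih =>
        intro h0
        have h3 := ha n
        rw [h0, lie_zero] at h3
        have h4 : (-(((n : ℝ) + 1) * (n + 2)) : ℝ) ≠ 0 := by
          have : (0 : ℝ) < ((n : ℝ) + 1) * (n + 2) := by positivity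
          linarith
        exact ih ((smul_eq_zero.1 h3.symm).resolve_left h4)
    exact hall n hn

end

attribute [local instance 100] LieRing.ofAssociativeRing

theorem slt : SltStmt := by
  intro m h e f z r h1 h2 h3 hh hz hr
  have t : IsSl2Triple h e f := by
    refine ⟨hh, ?_, ?_, ?_⟩
    · rw [Ring.lie_def]; exact h1
    · rw [Ring.lie_def, h2, two_smul, two_smul]
    · rw [Ring.lie_def, h3, two_smul, two_smul]
  have h4 := slt_gen (M := Matrix (Fin m) (Fin m) ℝ) t z hz r (by rw [Ring.lie_def]; exact hr)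
  simpa only [Ring.lie_def] using h4

end Pool.Agent.QSB.H47
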